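import Pool.Agent.H74.BRB.Final

/-!
MP_46d976_co. Blind robot in mazes of the square lattice.

For every sigma-finite measure on the set of all mazes (all triples board, origin, destination)
almost every word solves almost every maze. In particular for every probability measure on the set
of mazes there is one algorithm which solves almost all mazes.

Proof: a random word moves the robot like a lazy random walk on the board. A uniform bound: the
probability that the first `n` letters do not bring the robot to a destination at distance `k` is at
most `270 k / log n`, in every board. This is proved by a flow argument for the functions
`u_n(v) = P(v does not reach d in n steps)`, which are superharmonic off `d`: along each edge `u_n`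
changes at most by the flux `F_n` at `d`, the energy of `u_n` is at most `F_n`, and testing with a
logarithmic cut-off function and summing over the times gives `F_n ≤ 270 / log n`. Then Fubini.
-/

set_option autoImplicit false

namespace Pool.Agent.Results.MP_46d976_co.AlmostEveryMaze

open MeasureTheory Pool.BRB

/-- Uniformly in the board, a random word reaches a destination at distance `k` within `n` steps
except with probability `270 k / log n`; for every sigma-finite measure on the set of mazes almost
every word solves almost every maze. -/
theorem result : IsProbabilityMeasure wordLaw ∧
    (∀ (M : Board) (p : ℕ → ℤ × ℤ) (k n : ℕ),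
      (∀ i < k, ∃ D, has M (p i) D = true ∧ p (i + 1) = p i + vec D) → 2 ≤ n →
        wordLaw {A : ℕ → Dir | ∀ j ≤ n, pos M (p 0) A j ≠ p k} ≤
          ENNReal.ofReal (270 * k / Real.log n)) ∧
    ∀ μ : Measure Triple, [SigmaFinite μ] →
      ∀ᵐ A ∂wordLaw, ∀ᵐ m ∂μ, IsMaze m → Solves A m :=
  ⟨PRB.2, unif, aem⟩

end Pool.Agent.Results.MP_46d976_co.AlmostEveryMaze
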