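import Pool.Agent.H79.Drift.Main

/-!
# MP_46d976_co: one blind algorithm for all mazes in sectors, and for all mazes with basins of
bounded growth in some direction

A board is a graph `M` on `ℤ × ℤ` all of whose edges join lattice points at distance one.
`Pool.H79.Maze.pos M A o n` is the position of the robot after the first `n` instructions of `A`.
-/

namespace Pool.Agent.Results.MP_46d976_co.DriftMazes

open Pool.H79.Maze

theorem result (g : ℕ → ℕ) : ∃ A : ℕ → Dir, ∀ M : SimpleGraph (ℤ × ℤ),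
    (∀ u v : ℤ × ℤ, M.Adj u v → |u.1 - v.1| + |u.2 - v.2| = 1) →
    ∀ o d : ℤ × ℤ, M.Reachable o d →
    ((∃ a b a' b' c c' : ℤ, a * b' ≠ a' * b ∧
        ∀ v : ℤ × ℤ, Relation.ReflTransGen (fun p q => M.Adj p q ∧ q ≠ d) o v →
          c ≤ a * v.1 + b * v.2 ∧ c' ≤ a' * v.1 + b' * v.2) ∨
      (∃ a b : ℤ, ∃ K : ℕ, ∀ L : ℕ, K ≤ L → ∀ v : ℤ × ℤ,
        Relation.ReflTransGen (fun p q => M.Adj p q ∧ q ≠ d ∧ a * q.1 + b * q.2 ≤ L) o v →
          |v.1| + |v.2| ≤ g L)) →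
    ∃ n : ℕ, pos M A o n = d := by
  obtain ⟨A, hA⟩ := Pool.H79.Drift.main g
  refine ⟨A, fun M hM o d hr h => hA M hM o d hr ?_⟩
  rcases h with h | ⟨a, b, K, h⟩
  · exact Or.inl h
  · refine Or.inr ⟨a, b, K, fun L hL v hv => ?_⟩
    have h1 := h L hL v hv
    rw [Int.abs_eq_natAbs, Int.abs_eq_natAbs] at h1
    exact_mod_cast h1

end Pool.Agent.Results.MP_46d976_co.DriftMazes
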