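import Pool.Agent.H74.BRB.Final

/-!
MP_46d976_co. Blind robot in mazes of the square lattice.

Almost every word solves all mazes of a set `C` of mazes which is null for the gauge `1 / log`: for
every `ε > 0` the set `C` is covered by countably many cylinders (same origin and destination, same
board within distance `r_i` of the origin) with `∑ 1 / log (r_i) < ε`. Example: all boards which
differ from one of countably many given boards only at edges `e_0, e_1, ...` with
`|e_j| ≥ exp (4 ^ j)`.

Proof: uniformly in the maze, the probability that the first `n` letters do not bring the robot to a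
destination at distance `k` is at most `270 k / log n`, and this event depends only on the board
within distance `n` of the origin.
-/

set_option autoImplicit false

namespace Pool.Agent.Results.MP_46d976_co.LogNullSets

open MeasureTheory Pool.BRB

/-- Log-null sets of mazes are solved by almost every word. -/
theorem result : IsProbabilityMeasure wordLaw ∧
    (∀ C : Set Triple, LogNull C → ∀ᵐ A ∂wordLaw, ∀ m ∈ C, IsMaze m → Solves A m) ∧
    (∀ (B : ℕ → Board) (e : ℕ → (ℤ × ℤ) × Bool), (∀ j, Real.exp (4 ^ j) ≤ nn (e j).1 0) →
      ∀ᵐ A ∂wordLaw, ∀ m : Triple, (∃ i, ∀ f, (∀ j, f ≠ e j) → m.1 f = B i f) →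
        IsMaze m → Solves A m) :=
  ⟨PRB.2, nul, exb⟩

end Pool.Agent.Results.MP_46d976_co.LogNullSets
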