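import Pool.Agent.H79.Maze.Rows

/-!
# MP_46d976_co: one blind algorithm for all mazes in two rows or two columns

A board is a graph `M` on `ℤ × ℤ` all of whose edges join lattice points at distance one (an arbitrary
set of lattice edges may be absent). `Pool.H79.Maze.pos M A o n` is the position of the robot after
the first `n` instructions of `A`.

There is one algorithm which solves every maze `(M, o, d)` such that the component of `o` lies in two
consecutive rows or in two consecutive columns of the lattice.
-/

namespace Pool.Agent.Results.MP_46d976_co.TwoRowMazes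

open Pool.H79.Maze

theorem result : ∃ A : ℕ → Dir, ∀ M : SimpleGraph (ℤ × ℤ),
    (∀ u v : ℤ × ℤ, M.Adj u v → |u.1 - v.1| + |u.2 - v.2| = 1) →
    ∀ o d : ℤ × ℤ, M.Reachable o d →
    ((∃ y : ℤ, ∀ v : ℤ × ℤ, M.Reachable o v → v.2 = y ∨ v.2 = y + 1) ∨
      (∃ x : ℤ, ∀ v : ℤ × ℤ, M.Reachable o v → v.1 = x ∨ v.1 = x + 1)) →
    ∃ n : ℕ, pos M A o n = d :=
  Pool.H79.Maze.main

end Pool.Agent.Results.MP_46d976_co.TwoRowMazes
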